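import Pool.Agent.Q227.SW.Pol
import Pool.Agent.Q227.NoDec
import Pool.Agent.H673R2.HardOn

/-!
# MaxTotalSwitches in the stacking model is NP-hard

The reduction is from 3-satisfiability (through vertex cover). The instances are straight-line
drawings of connected graphs with small integer coordinates.
-/

set_option autoImplicit false

namespace Pool.Agent.Results.MP_21e81a_lc.StackingHard

open Pool.Agent.NPC Pool.Agent.H673R2 Pool.Agent.Q227.TF Pool.Agent.Q227.SW

/-- MaxTotalSwitches in the stacking model is `NP`-hard, already for straight-line drawings: every
language in `NP` has a polynomial-time many-one reduction to the problem of deciding, for a regular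
straight-line drawing of a connected simple graph with endpoints in `ℕ × ℕ` and a number `N`,
whether some linear order of the edges has at least `N` switches. Hence, if `P ≠ NP`, no
polynomial-time algorithm decides this problem. -/
theorem result : NPHardOn (fun I : List Seg × ℕ => Regular I.1) ManySwitches ∧
    (PneNP → ¬ ∃ A : List Bool → List Bool, PolyTime A ∧ ∀ I : List Seg × ℕ, Regular I.1 →
      (ManySwitches I → A (bits I) = [true]) ∧ (¬ ManySwitches I → A (bits I) = [false])) := by
  have h : NPHardOn (fun I : List Seg × ℕ => Regular I.1) ManySwitches :=
    npHardOn_of hardPr_SAT3b (f := red) red_poly (fun φ _ => drawing_regular _ _)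
      fun φ _ => red_iff φ
  exact ⟨h, fun hne => Pool.Agent.Q227.no_decider h hne⟩

end Pool.Agent.Results.MP_21e81a_lc.StackingHard
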